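import Pool.Agent.T6.H21.NC.Red

/-!
# Hodge classes of noncommutative products with hypergeometric Calabi-Yau varieties (helper21)
-/

set_option autoImplicit false

open Pool.Agent.Results.MP_4e1cf2_ag.ArbitraryFactor

namespace Pool.Agent.T6.H21.NC

/-- the algebraic part of a multi-index -/
def patt {r s n : ℕ} (J : Fin r → Fin s ⊕ Fin n) : Fin r → Option (Fin s) := fun x => Sum.elim some (fun _ => none) (J x)

theorem parity_of {r k s m d : ℕ} {V : Fin k → ℕ → Submodule ℂ (Fin (2 * m) → ℂ)} {c : Fin r → Fin k}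
    {K1 : Fin d → Prop} {U : ℤ → Submodule ℂ (Fin d → ℂ)} (hU : IsHochschild K1 U)
    {t : (Fin r → Fin s ⊕ Fin (2 * m)) → Fin d → ℂ} (ht : t ∈ HH V c U 0) :
    ∀ J b, t J b ≠ 0 → (K1 b ↔ Odd (Fintype.card {x // patt J x = none})) := by
  unfold HH at ht
  induction ht using Submodule.span_induction with
  | zero => intro J b h; exact absurd rfl h
  | add x y _ _ hx hy =>
    intro J b h
    by_cases h1 : x J b = 0
    · refine hy J b fun h2 => h ?_
      show x J b + y J b = 0
      rw [h1, h2, add_zero]
    · exact hx J b h1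
  | smul a x _ hx =>
    intro J b h
    refine hx J b fun h1 => h ?_
    show a * x J b = 0
    rw [h1, mul_zero]
  | mem f hf =>
    obtain ⟨a, h, q, w, hdeg, hw, hsum, rfl⟩ := hf
    intro J b hne
    have hw0 : w b ≠ 0 := right_ne_zero_of_mul hne
    have hh : ∀ x, h x (J x) ≠ 0 := fun x => Finset.prod_ne_zero_iff.1 (left_ne_zero_of_mul hne) x (Finset.mem_univ _)
    rw [hU.parity q w hw b hw0]
    have h1 : ∀ x, patt J x ≠ none → a x = 0 := by
      intro x hx
      unfold patt at hx
      rcases hJ : J x with e | l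
      · have := hh x
        rw [hJ] at this
        exact (hdeg x).1 e this
      · rw [hJ] at hx
        exact absurd rfl hx
    have h2 : ∀ x, patt J x = none → ∃ p : ℤ, a x = 2 * p + 1 := by
      intro x hx
      unfold patt at hx
      rcases hJ : J x with e | l
      · rw [hJ] at hx
        simp at hx
      · have h3 := hh x
        rw [hJ] at h3
        rcases (hdeg x).2 with ⟨p, _, hp, _⟩ | h4
        · refine ⟨(p : ℤ) - m, ?_⟩
          rw [hp]
          push_cast
          ring
        · exact absurd (h4 l) h3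
    choose! p hp using h2
    have hs : ∑ x, a x = ∑ x : {x // patt J x = none}, (2 * p x.1 + 1) := by
      rw [← Fintype.sum_subtype_add_sum_subtype (fun x => patt J x = none),
        Finset.sum_eq_zero (s := (Finset.univ : Finset {x // ¬ patt J x = none})) (fun x _ => h1 x.1 x.2), add_zero]
      exact Finset.sum_congr rfl fun x _ => hp x.1 x.2
    rw [Finset.sum_add_distrib, ← Finset.mul_sum, Finset.sum_const, Finset.card_univ, nsmul_eq_mul, mul_one] at hs
    have hq : q = -(2 * ∑ x : {x // patt J x = none}, p x.1 + (Fintype.card {x // patt J x = none} : ℤ)) := by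
      rw [hs] at hsum
      linarith
    rw [hq, ← Int.odd_coe_nat (Fintype.card {x // patt J x = none}), Int.odd_iff, Int.odd_iff]
    omega

open Classical in
/-- extension of a tensor to the multi-indices with the pattern `σ`, even part -/
noncomputable def ext {r s n d : ℕ} (K1 : Fin d → Prop) (σ : Fin r → Option (Fin s)) {N : ℕ}
    (en : Fin N ≃ {x // σ x = none}) (df : Fin n) :
    ((Fin N → Fin n) → (Fin 1 → Fin d) → ℚ) →ₗ[ℚ] ((Fin r → Fin s ⊕ Fin n) → Fin d → ℚ) where
  toFun T J b := if patt J = σ ∧ ¬ K1 b then T (fun i => Sum.elim (fun _ => df) id (J (en i))) (fun _ => b) else 0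
  map_add' S T := by
    funext J b
    simp only [Pi.add_apply]
    split_ifs
    · rfl
    · rw [add_zero]
  map_smul' a T := by
    funext J b
    simp only [Pi.smul_apply, RingHom.id_apply]
    split_ifs
    · rfl
    · rw [smul_zero]

open Classical in
/-- the even part -/
noncomputable def evn {R : Type} [Zero R] {d : ℕ} (K1 : Fin d → Prop) (z : Fin d → R) : Fin d → R :=
  fun b => if K1 b then 0 else z b

open Classical in
theorem ext_prod {r s n d : ℕ} (K1 : Fin d → Prop) (σ : Fin r → Option (Fin s)) {N l : ℕ}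
    (en : Fin N ≃ {x // σ x = none}) (df : Fin n) (A : Matrix (Fin n) (Fin n) ℚ) (e : Fin l × Fin 2 ≃ Fin N)
    (z : (Fin 1 → Fin d) → ℚ) :
    ext K1 σ en df (fun J K => (∏ i, A⁻¹ (J (e (i, 0))) (J (e (i, 1)))) * z K) =
      box A σ (e.trans en) (evn K1 fun b => z fun _ => b) := by
  funext J b
  show (if patt J = σ ∧ ¬ K1 b then _ else _) =
    (∏ x, cls (σ x) (J x)) * (∏ i, pair A (J (e.trans en (i, 0))) (J (e.trans en (i, 1)))) *
      (if K1 b then 0 else z fun _ => b)
  by_cases hb : K1 b
  · rw [if_neg (fun h => h.2 hb), if_pos hb, mul_zero]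
  rw [if_neg hb]
  by_cases hJ : patt J = σ
  · rw [if_pos ⟨hJ, hb⟩]
    have h1 : ∏ x, cls (σ x) (J x) = 1 := by
      refine Finset.prod_eq_one fun x _ => ?_
      have h2 := congrFun hJ x
      unfold patt at h2
      rcases hJx : J x with e' | l'
      · rw [hJx] at h2
        rw [← h2]
        simp [cls]
      · rw [hJx] at h2
        rw [← h2]
        simp [cls]
    rw [h1, one_mul]
    congr 1
    refine Finset.prod_congr rfl fun i _ => ?_
    have h3 : ∀ u : Fin N, J (en u) = Sum.inr (Sum.elim (fun _ => df) id (J (en u))) := by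
      intro u
      have h4 : patt J (en u) = none := by rw [hJ]; exact (en u).2
      unfold patt at h4
      rcases hJu : J (en u) with e' | l'
      · rw [hJu] at h4; simp at h4
      · rfl
    rw [Equiv.trans_apply, Equiv.trans_apply, h3 (e (i, 0)), h3 (e (i, 1))]
    simp [pair]
  · rw [if_neg (fun h => hJ h.1)]
    symm
    obtain ⟨x, hx⟩ := Function.ne_iff.1 hJ
    have h0 : (∏ x, cls (σ x) (J x)) * (∏ i, pair A (J (e.trans en (i, 0))) (J (e.trans en (i, 1)))) = 0 := by
      rcases hσ : σ x with _ | e'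
      · -- the slot `x` is paired
        have h2 : ∃ e'', J x = Sum.inl e'' := by
          unfold patt at hx
          rcases hJx : J x with e'' | l'
          · exact ⟨e'', rfl⟩
          · rw [hJx, hσ] at hx
            exact absurd rfl hx
        obtain ⟨e'', he⟩ := h2
        obtain ⟨⟨i, j⟩, hij⟩ := (e.trans en).surjective ⟨x, hσ⟩
        have h3 : (((e.trans en) (i, j) : {x // σ x = none}) : Fin r) = x := by rw [hij]
        have h4 : pair A (J (e.trans en (i, 0))) (J (e.trans en (i, 1))) = 0 := by
          fin_cases j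
          · have h5 : J (e.trans en (i, 0)) = Sum.inl e'' := by
              rw [← he]; exact congrArg J h3
            rw [h5]; rfl
          · have h5 : J (e.trans en (i, 1)) = Sum.inl e'' := by
              rw [← he]; exact congrArg J h3
            rw [h5]
            rcases J (e.trans en (i, 0)) with _ | _ <;> rfl
        rw [Finset.prod_eq_zero (Finset.mem_univ i) h4, mul_zero]
      · have h4 : cls (σ x) (J x) = 0 := by
          unfold patt at hx
          rcases hJx : J x with e'' | l'
          · rw [hJx, hσ] at hx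
            rw [hσ]
            have : e' ≠ e'' := fun h => hx (by rw [h]; rfl)
            simp [cls, this]
          · rw [hσ]; simp [cls]
        rw [Finset.prod_eq_zero (Finset.mem_univ x) h4, zero_mul]
    rw [h0, zero_mul]

theorem evn_mem {d : ℕ} {K1 : Fin d → Prop} {U : ℤ → Submodule ℂ (Fin d → ℂ)} (hU : IsHochschild K1 U)
    {z : (Fin 1 → Fin d) → ℚ} (hz : (fun K => ((z K : ℚ) : ℂ)) ∈ OfTypeW (mrg U) 1 0) :
    evn K1 (fun b => z fun _ => b) ∈ Hdg U := by
  classical
  have h1 : ∀ y : (Fin 1 → Fin d) → ℂ, y ∈ OfTypeW (mrg U) 1 0 → (fun b => y fun _ => b) ∈ mrg U 0 := by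
    intro y hy
    unfold OfTypeW at hy
    induction hy using Submodule.span_induction with
    | zero => exact Submodule.zero_mem _
    | add x y _ _ hx hy => exact Submodule.add_mem _ hx hy
    | smul a x _ hx => exact Submodule.smul_mem _ _ hx
    | mem f hf =>
      obtain ⟨q, w, hw, hs, rfl⟩ := hf
      rw [Fin.sum_univ_one] at hs
      have h2 : (fun b => ∏ b' : Fin 1, w b' ((fun _ => b) b')) = w 0 := by
        funext b
        rw [Fin.prod_univ_one]
      rw [h2, ← hs]
      exact hw 0
  have h2 := h1 _ hz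
  unfold mrg at h2
  rw [mul_zero, zero_add] at h2
  obtain ⟨u0, hu0, u1, hu1, hu⟩ := Submodule.mem_sup.1 h2
  show (fun b => (((evn K1 (fun b => z fun _ => b)) b : ℚ) : ℂ)) ∈ U 0
  have h3 : (fun b => (((evn K1 (fun b => z fun _ => b)) b : ℚ) : ℂ)) = u0 := by
    funext b
    have h4 := congrFun hu b
    simp only [Pi.add_apply] at h4
    unfold evn
    split_ifs with hb
    · rw [Rat.cast_zero]
      by_contra h5
      have h6 := (hU.parity 0 u0 hu0 b (Ne.symm h5)).1 hb
      simp at h6
    · rw [← h4]
      have h5 : u1 b = 0 := by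
        by_contra h6
        exact hb ((hU.parity 1 u1 hu1 b h6).2 odd_one)
      rw [h5, add_zero]
  rw [h3]
  exact hu0

theorem piece {r k s m d : ℕ} {A : Matrix (Fin (2 * m)) (Fin (2 * m)) ℚ}
    {V : Fin k → ℕ → Submodule ℂ (Fin (2 * m) → ℂ)} (c : Fin r → Fin k) {K1 : Fin d → Prop}
    {U : ℤ → Submodule ℂ (Fin d → ℂ)} (hU : IsHochschild K1 U) (hP : OnlyProducts A V (mrg U)) (df : Fin (2 * m))
    {t : (Fin r → Fin s ⊕ Fin (2 * m)) → Fin d → ℚ} (ht : (fun J b => ((t J b : ℚ) : ℂ)) ∈ HH V c U 0)
    (σ : Fin r → Option (Fin s)) {N : ℕ} (en : Fin N ≃ {x // σ x = none}) :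
    ext K1 σ en df (restr σ ℚ en t) ∈ Boxes A c (Hdg U) ∧ (Odd N → restr σ ℚ en t = 0) := by
  have h1 := restr_type V c U σ en ht
  have h2 : (fun J K => (((restr σ ℚ en t) J K : ℚ) : ℂ)) ∈
      OfType V (fun i => c (en i)) (mrg U) 1 ((N : ℤ) * (2 * (m : ℤ) - 1) / 2) := h1
  have h3 := hP N 1 (fun i => c (en i)) _ _ h2
  unfold Products at h3
  constructor
  · generalize restr σ ℚ en t = T at h3
    induction h3 using Submodule.span_induction with
    | zero => rw [map_zero]; exact Submodule.zero_mem _
    | add x y _ _ hx hy => rw [map_add]; exact Submodule.add_mem _ hx hy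
    | smul a x _ hx => rw [map_smul]; exact Submodule.smul_mem _ _ hx
    | mem f hf =>
      obtain ⟨l, e, z, hc, hz, rfl⟩ := hf
      rw [ext_prod]
      refine Submodule.subset_span ⟨σ, l, e.trans en, _, ?_, fun i => hc i, rfl⟩
      refine evn_mem hU ?_
      have hN : N = 2 * l := by
        have h5 := Fintype.card_congr e
        simp only [Fintype.card_prod, Fintype.card_fin] at h5
        omega
      have h6 : (N : ℤ) * (2 * (m : ℤ) - 1) / 2 - (l : ℤ) * (2 * (m : ℤ) - 1) = 0 := by
        rw [hN]
        push_cast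
        have : 2 * (l : ℤ) * (2 * (m : ℤ) - 1) = ((l : ℤ) * (2 * (m : ℤ) - 1)) * 2 := by ring
        rw [this, Int.mul_ediv_cancel _ (by norm_num)]
        ring
      rw [h6] at hz
      exact hz
  · intro hodd
    have h4 : ∀ T ∈ Submodule.span ℚ {f | ∃ (s : ℕ) (e : Fin s × Fin 2 ≃ Fin N) (z : (Fin 1 → Fin d) → ℚ),
        (∀ l, c (en (e (l, 0))) = c (en (e (l, 1)))) ∧ (fun K => ((z K : ℚ) : ℂ)) ∈
          OfTypeW (mrg U) 1 ((N : ℤ) * (2 * (m : ℤ) - 1) / 2 - (s : ℤ) * (2 * (m : ℤ) - 1)) ∧
        f = fun (J : Fin N → Fin (2 * m)) (K : Fin 1 → Fin d) => (∏ l, A⁻¹ (J (e (l, 0))) (J (e (l, 1)))) * z K},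
        T = 0 := by
      intro T hT
      induction hT using Submodule.span_induction with
      | zero => rfl
      | add x y _ _ hx hy => rw [hx, hy, add_zero]
      | smul a x _ hx => rw [hx, smul_zero]
      | mem f hf =>
        obtain ⟨l, e, z, hc, hz, rfl⟩ := hf
        have h5 := Fintype.card_congr e
        simp only [Fintype.card_prod, Fintype.card_fin] at h5
        rw [← h5] at hodd
        exact absurd hodd (by rw [Nat.not_odd_iff_even]; exact even_two.mul_left l)
    exact h4 _ h3

theorem mem_boxes {r k s m d : ℕ} (hm : 1 ≤ m) {A : Matrix (Fin (2 * m)) (Fin (2 * m)) ℚ}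
    {V : Fin k → ℕ → Submodule ℂ (Fin (2 * m) → ℂ)} (c : Fin r → Fin k) {K1 : Fin d → Prop}
    {U : ℤ → Submodule ℂ (Fin d → ℂ)} (hU : IsHochschild K1 U) (hP : OnlyProducts A V (mrg U))
    {t : (Fin r → Fin s ⊕ Fin (2 * m)) → Fin d → ℚ} (ht : (fun J b => ((t J b : ℚ) : ℂ)) ∈ HH V c U 0) :
    t ∈ Boxes A c (Hdg U) := by
  classical
  have df : Fin (2 * m) := ⟨0, by omega⟩
  let en : ∀ σ : Fin r → Option (Fin s), Fin (Fintype.card {x // σ x = none}) ≃ {x // σ x = none} :=
    fun σ => (Fintype.equivFin _).symm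
  have hsum : t = ∑ σ : Fin r → Option (Fin s), ext K1 σ (en σ) df (restr σ ℚ (en σ) t) := by
    funext J b
    rw [Finset.sum_apply, Finset.sum_apply]
    rw [Finset.sum_eq_single (patt J)]
    · show t J b = if patt J = patt J ∧ ¬ K1 b then
        t (comb (patt J) (en (patt J)) (fun i => Sum.elim (fun _ => df) id (J (en (patt J) i)))) b else 0
      have hJ : comb (patt J) (en (patt J)) (fun i => Sum.elim (fun _ => df) id (J (en (patt J) i))) = J := by
        funext x
        rcases hx : J x with e | l
        · exact comb_some _ _ _ (by unfold patt; rw [hx]; rfl)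
        · have h1 : patt J x = none := by unfold patt; rw [hx]; rfl
          obtain ⟨i, hi⟩ := (en (patt J)).surjective ⟨x, h1⟩
          have h2 : (en (patt J) i : Fin r) = x := by rw [hi]
          have h3 := comb_none (patt J) (en (patt J)) (fun i => Sum.elim (fun _ => df) id (J (en (patt J) i))) i
          rw [h2] at h3
          rw [h3, hx]
          rfl
      by_cases hb : K1 b
      · rw [if_neg (fun h => h.2 hb)]
        by_contra hne
        have h5 := (parity_of hU ht J b (by exact_mod_cast hne)).1 hb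
        have h6 := (piece c hU hP df ht (patt J) (en (patt J))).2 h5
        have h7 : restr (patt J) ℚ (en (patt J)) t
            (fun i => Sum.elim (fun _ => df) id (J (en (patt J) i))) (fun _ => b) = 0 := by rw [h6]; rfl
        apply hne
        rw [← h7]
        show t J b = t (comb (patt J) (en (patt J)) _) b
        rw [hJ]
      · rw [if_pos ⟨rfl, hb⟩, hJ]
    · intro σ _ hσ
      show (if patt J = σ ∧ ¬ K1 b then _ else (0 : ℚ)) = 0
      rw [if_neg (fun h => hσ h.1.symm)]
    · intro h
      exact absurd (Finset.mem_univ _) h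
  rw [hsum]
  exact Submodule.sum_mem _ fun σ _ => (piece c hU hP df ht σ (en σ)).1

end Pool.Agent.T6.H21.NC
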