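import Pool.Agent.Results.MP_4e1cf2_ag.ArbitraryFactor

/-!
# Hodge classes of noncommutative products with hypergeometric Calabi-Yau varieties: reduction (helper21)
-/

set_option autoImplicit false

open Pool.Agent.Results.MP_4e1cf2_ag.ArbitraryFactor

namespace Pool.Agent.T6.H21.NC

/-- two consecutive degrees are put together -/
def mrg {d : ℕ} (U : ℤ → Submodule ℂ (Fin d → ℂ)) (q : ℤ) : Submodule ℂ (Fin d → ℂ) := U (2 * q) ⊔ U (2 * q + 1)

theorem mrg_le {d : ℕ} (U : ℤ → Submodule ℂ (Fin d → ℂ)) (q : ℤ) : U q ≤ mrg U (q / 2) := by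
  rcases Int.emod_two_eq_zero_or_one q with h | h
  · have h1 : q = 2 * (q / 2) := by omega
    conv_lhs => rw [h1]
    exact le_sup_left
  · have h1 : q = 2 * (q / 2) + 1 := by omega
    conv_lhs => rw [h1]
    exact le_sup_right

theorem mrg_internal {d : ℕ} {U : ℤ → Submodule ℂ (Fin d → ℂ)} (hU : DirectSum.IsInternal U) :
    DirectSum.IsInternal (mrg U) := by
  rw [DirectSum.isInternal_submodule_iff_iSupIndep_and_iSup_eq_top] at hU ⊢
  refine ⟨fun q => ?_, ?_⟩
  · have h1 : Disjoint (({2 * q, 2 * q + 1} : Set ℤ)) (({2 * q, 2 * q + 1} : Set ℤ)ᶜ) := disjoint_compl_right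
    refine (hU.1.disjoint_biSup_biSup h1).mono ?_ ?_
    · refine sup_le ?_ ?_
      · exact le_iSup₂_of_le (2 * q) (by simp) le_rfl
      · exact le_iSup₂_of_le (2 * q + 1) (by simp) le_rfl
    · refine iSup₂_le fun j hj => sup_le ?_ ?_
      · refine le_iSup₂_of_le (2 * j) ?_ le_rfl
        simp only [Set.mem_compl_iff, Set.mem_insert_iff, Set.mem_singleton_iff]
        omega
      · refine le_iSup₂_of_le (2 * j + 1) ?_ le_rfl
        simp only [Set.mem_compl_iff, Set.mem_insert_iff, Set.mem_singleton_iff]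
        omega
  · rw [eq_top_iff, ← hU.2]
    exact iSup_le fun q => (mrg_le U q).trans (le_iSup (mrg U) (q / 2))

/-- `K1 b` means that the basis vector `b` is in `K_1`; `U δ` is the part of degree `δ` -/
structure IsHochschild {d : ℕ} (K1 : Fin d → Prop) (U : ℤ → Submodule ℂ (Fin d → ℂ)) : Prop where
  internal : DirectSum.IsInternal U
  parity : ∀ δ, ∀ w ∈ U δ, ∀ b, w b ≠ 0 → (K1 b ↔ Odd δ)

/-- The class `h` has degree `δ` in the Hochschild homology of the fibre. -/
def IsDeg {s n : ℕ} (V : ℕ → Submodule ℂ (Fin n → ℂ)) (δ : ℤ) (h : Fin s ⊕ Fin n → ℂ) : Prop :=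
  (∀ e, h (Sum.inl e) ≠ 0 → δ = 0) ∧
    ((∃ p : ℕ, p < n ∧ δ = 2 * (p : ℤ) - ((n : ℤ) - 1) ∧ (fun l => h (Sum.inr l)) ∈ V p) ∨ ∀ l, h (Sum.inr l) = 0)

/-- the classes of degree `δ` on the product -/
def HH {r k s n d : ℕ} (V : Fin k → ℕ → Submodule ℂ (Fin n → ℂ)) (c : Fin r → Fin k)
    (U : ℤ → Submodule ℂ (Fin d → ℂ)) (δ : ℤ) : Submodule ℂ ((Fin r → Fin s ⊕ Fin n) → Fin d → ℂ) :=
  Submodule.span ℂ {f | ∃ (a : Fin r → ℤ) (h : Fin r → Fin s ⊕ Fin n → ℂ) (q : ℤ) (w : Fin d → ℂ),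
    (∀ x, IsDeg (V (c x)) (a x) (h x)) ∧ w ∈ U q ∧ ∑ x, a x + q = δ ∧ f = fun J b => (∏ x, h x (J x)) * w b}

/-- the rational classes of degree zero -/
def Hdg {d : ℕ} (U : ℤ → Submodule ℂ (Fin d → ℂ)) : Submodule ℚ (Fin d → ℚ) where
  carrier := {z | (fun b => ((z b : ℚ) : ℂ)) ∈ U 0}
  zero_mem' := by
    have : (fun b : Fin d => (((0 : Fin d → ℚ) b : ℚ) : ℂ)) = 0 := by ext; simp
    show (fun b : Fin d => (((0 : Fin d → ℚ) b : ℚ) : ℂ)) ∈ U 0
    rw [this]; exact Submodule.zero_mem _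
  add_mem' := by
    intro x y hx hy
    have : (fun b : Fin d => (((x + y) b : ℚ) : ℂ)) = (fun b => ((x b : ℚ) : ℂ)) + fun b => ((y b : ℚ) : ℂ) := by
      ext b; simp
    show (fun b : Fin d => (((x + y) b : ℚ) : ℂ)) ∈ U 0
    rw [this]; exact Submodule.add_mem _ hx hy
  smul_mem' := by
    intro c x hx
    have : (fun b : Fin d => (((c • x) b : ℚ) : ℂ)) = (c : ℂ) • fun b => ((x b : ℚ) : ℂ) := by
      ext b; simp
    show (fun b : Fin d => (((c • x) b : ℚ) : ℂ)) ∈ U 0
    rw [this]; exact Submodule.smul_mem _ _ hx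

/-- the class of the algebraic cycle `e` (no condition for `none`) -/
def cls {s n : ℕ} : Option (Fin s) → Fin s ⊕ Fin n → ℚ
  | none, _ => 1
  | some e, Sum.inl e' => if e = e' then 1 else 0
  | some _, Sum.inr _ => 0

/-- the tensor `A⁻¹` in `V ⊗ V` -/
noncomputable def pair {s n : ℕ} (A : Matrix (Fin n) (Fin n) ℚ) : Fin s ⊕ Fin n → Fin s ⊕ Fin n → ℚ
  | Sum.inr l, Sum.inr l' => A⁻¹ l l'
  | _, _ => 0

/-- the product classes -/
noncomputable def box {r s n d l : ℕ} (A : Matrix (Fin n) (Fin n) ℚ) (σ : Fin r → Option (Fin s))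
    (e : Fin l × Fin 2 ≃ {x // σ x = none}) (z : Fin d → ℚ) : (Fin r → Fin s ⊕ Fin n) → Fin d → ℚ := fun J b =>
  (∏ x, cls (σ x) (J x)) * (∏ i, pair A (J (e (i, 0))) (J (e (i, 1)))) * z b

/-- the span of the products -/
def Boxes {r k s n d : ℕ} (A : Matrix (Fin n) (Fin n) ℚ) (c : Fin r → Fin k) (M : Submodule ℚ (Fin d → ℚ)) :
    Submodule ℚ ((Fin r → Fin s ⊕ Fin n) → Fin d → ℚ) :=
  Submodule.span ℚ {t | ∃ (σ : Fin r → Option (Fin s)) (l : ℕ) (e : Fin l × Fin 2 ≃ {x // σ x = none})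
    (z : Fin d → ℚ), z ∈ M ∧ (∀ i, c (e (i, 0)) = c (e (i, 1))) ∧ t = box A σ e z}

section

variable {r k s m d : ℕ} (V : Fin k → ℕ → Submodule ℂ (Fin (2 * m) → ℂ)) (c : Fin r → Fin k)
  (U : ℤ → Submodule ℂ (Fin d → ℂ)) (σ : Fin r → Option (Fin s))

/-- the multi-index with the algebraic part `σ` -/
def comb {N : ℕ} (en : Fin N ≃ {x // σ x = none}) (J' : Fin N → Fin (2 * m)) : Fin r → Fin s ⊕ Fin (2 * m) :=
  fun x => if h : σ x = none then Sum.inr (J' (en.symm ⟨x, h⟩))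
    else Sum.inl ((σ x).get (Option.isSome_iff_ne_none.2 h))

theorem comb_none {N : ℕ} (en : Fin N ≃ {x // σ x = none}) (J' : Fin N → Fin (2 * m)) (i : Fin N) :
    comb σ en J' (en i).1 = Sum.inr (J' i) := by
  unfold comb
  rw [dif_pos (en i).2]
  simp

theorem comb_some {N : ℕ} (en : Fin N ≃ {x // σ x = none}) (J' : Fin N → Fin (2 * m)) {x : Fin r} {e : Fin s}
    (h : σ x = some e) : comb σ en J' x = Sum.inl e := by
  unfold comb
  rw [dif_neg (by rw [h]; simp)]
  simp [h]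

/-- restriction to the pattern `σ` -/
def restr (R : Type) [Semiring R] {N : ℕ} (en : Fin N ≃ {x // σ x = none}) :
    ((Fin r → Fin s ⊕ Fin (2 * m)) → Fin d → R) →ₗ[R] ((Fin N → Fin (2 * m)) → (Fin 1 → Fin d) → R) where
  toFun t J' K := t (comb σ en J') (K 0)
  map_add' _ _ := rfl
  map_smul' _ _ := rfl

theorem restr_type {N : ℕ} (en : Fin N ≃ {x // σ x = none})
    {t : (Fin r → Fin s ⊕ Fin (2 * m)) → Fin d → ℂ} (ht : t ∈ HH V c U 0) :
    restr σ ℂ en t ∈ OfType V (fun i => c (en i)) (mrg U) 1 ((N : ℤ) * (2 * (m : ℤ) - 1) / 2) := by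
  unfold HH at ht
  induction ht using Submodule.span_induction with
  | zero => rw [map_zero]; exact Submodule.zero_mem _
  | add x y _ _ hx hy => rw [map_add]; exact Submodule.add_mem _ hx hy
  | smul a x _ hx => rw [map_smul]; exact Submodule.smul_mem _ _ hx
  | mem f hf =>
    obtain ⟨a, h, q, w, hdeg, hw, hsum, rfl⟩ := hf
    -- the product over the slots
    have hprod : ∀ J' : Fin N → Fin (2 * m), (∏ x, h x (comb σ en J' x)) =
        (∏ x : {x // σ x ≠ none}, h x.1 (Sum.inl ((σ x.1).get (Option.isSome_iff_ne_none.2 x.2)))) *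
          ∏ i, h (en i).1 (Sum.inr (J' i)) := by
      intro J'
      rw [← Fintype.prod_subtype_mul_prod_subtype (fun x => σ x = none), mul_comm]
      congr 1
      · refine Finset.prod_congr rfl fun x _ => ?_
        unfold comb
        rw [dif_neg x.2]
      · rw [← Equiv.prod_comp en]
        exact Finset.prod_congr rfl fun i _ => by rw [comb_none]
    by_cases h0 : (∏ x : {x // σ x ≠ none}, h x.1 (Sum.inl ((σ x.1).get (Option.isSome_iff_ne_none.2 x.2)))) = 0
    · have : restr σ ℂ en (fun J b => (∏ x, h x (J x)) * w b) = 0 := by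
        funext J' K
        show (∏ x, h x (comb σ en J' x)) * w (K 0) = 0
        rw [hprod, h0, zero_mul, zero_mul]
      rw [this]
      exact Submodule.zero_mem _
    by_cases h1 : ∃ i, ∀ l, h (en i).1 (Sum.inr l) = 0
    · obtain ⟨i, hi⟩ := h1
      have : restr σ ℂ en (fun J b => (∏ x, h x (J x)) * w b) = 0 := by
        funext J' K
        show (∏ x, h x (comb σ en J' x)) * w (K 0) = 0
        rw [hprod, Finset.prod_eq_zero (Finset.mem_univ i) (hi _), mul_zero, zero_mul]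
      rw [this]
      exact Submodule.zero_mem _
    · have hV : ∀ i : Fin N, ∃ p : ℕ, p < 2 * m ∧ a (en i).1 = 2 * (p : ℤ) - (((2 * m : ℕ) : ℤ) - 1) ∧
          (fun l => h (en i).1 (Sum.inr l)) ∈ V (c (en i).1) p := by
        intro i
        rcases (hdeg (en i).1).2 with h2 | h2
        · exact h2
        · exact absurd ⟨i, h2⟩ h1
      choose p hp1 hp2 hp3 using hV
      have ha : ∀ x, σ x ≠ none → a x = 0 := by
        intro x hx
        have h2 := Finset.prod_ne_zero_iff.1 h0 ⟨x, hx⟩ (Finset.mem_univ _)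
        exact (hdeg x).1 _ h2
      have hs : ∑ x, a x = ∑ i, (2 * (p i : ℤ) - (2 * (m : ℤ) - 1)) := by
        rw [← Fintype.sum_subtype_add_sum_subtype (fun x => σ x = none),
          Finset.sum_eq_zero (s := (Finset.univ : Finset {x // ¬ σ x = none})) (fun x _ => ha x.1 x.2), add_zero,
          ← Equiv.sum_comp en]
        refine Finset.sum_congr rfl fun i _ => ?_
        rw [hp2 i]
        push_cast
        ring
      have hs2 : ∑ i, (2 * (p i : ℤ) - (2 * (m : ℤ) - 1)) = 2 * ∑ i, (p i : ℤ) - (N : ℤ) * (2 * (m : ℤ) - 1) := by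
        rw [Finset.sum_sub_distrib, ← Finset.mul_sum, Finset.sum_const, Finset.card_univ, Fintype.card_fin, nsmul_eq_mul]
      have hq : q = (N : ℤ) * (2 * (m : ℤ) - 1) + (-∑ i, (p i : ℤ)) * 2 := by
        rw [hs, hs2] at hsum
        linarith
      have hq2 : ∑ i, (p i : ℤ) + q / 2 = (N : ℤ) * (2 * (m : ℤ) - 1) / 2 := by
        rw [hq, Int.add_mul_ediv_right _ _ (by norm_num)]
        ring
      have hfin : restr σ ℂ en (fun J b => (∏ x, h x (J x)) * w b) =
          (∏ x : {x // σ x ≠ none}, h x.1 (Sum.inl ((σ x.1).get (Option.isSome_iff_ne_none.2 x.2)))) •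
            (fun (J : Fin N → Fin (2 * m)) (K : Fin 1 → Fin d) =>
              (∏ i, (fun l => h (en i).1 (Sum.inr l)) (J i)) * ∏ b : Fin 1, w (K b)) := by
        funext J' K
        show (∏ x, h x (comb σ en J' x)) * w (K 0) = _ * (_ * _)
        rw [hprod, Fin.prod_univ_one]
        ring
      rw [hfin]
      refine Submodule.smul_mem _ _ (Submodule.subset_span ?_)
      refine ⟨p, fun i l => h (en i).1 (Sum.inr l), fun _ => q / 2, fun _ => w, fun i => ⟨hp1 i, hp3 i⟩,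
        fun _ => mrg_le U q hw, ?_, rfl⟩
      rw [Fin.sum_univ_one]
      exact hq2

end

end Pool.Agent.T6.H21.NC
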